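import Mathlib
import Pool.Agent.ETC.Base
import Pool.Agent.Helper58.EU.Loc

set_option autoImplicit false

/-! # Places are top -/

namespace Pool.Agent.ETC

open Pool.Agent.Helper58.EU (Ordg Tm Wd)

section

variable {F : Type} [Field F]

/-- `R` is not exceptional (only relevant for `p = 2`): no ordering `P ⊇ T(R)` has `P/T(R)`
cyclic -/
def NX (p : ℕ) (ζ : F) (R : ValuationSubring F) : Prop :=
  ∀ P : Subgroup Fˣ, Ordg P → TR p ζ R ≤ P → ∀ g : Fˣ, ∃ x ∈ P, ∀ n : ℕ, x / g ^ n ∉ TR p ζ R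

/-- for `p` odd no ordering contains the `p`-th powers -/
lemma not_le_of_odd {p : ℕ} (hp : Odd p) {T P : Subgroup Fˣ} (hT : ∀ c : Fˣ, c ^ p ∈ T)
    (hP : Ordg P) : ¬ T ≤ P := by
  intro h
  apply hP.neg
  have h1 := h (hT (-1))
  rwa [hp.neg_one_pow] at h1

lemma pow_mem_TR (p : ℕ) (ζ : F) (R : ValuationSubring F) (c : Fˣ) : c ^ p ∈ TR p ζ R :=
  Subgroup.mem_sup_left ⟨c, rfl⟩

lemma NX.of_odd {p : ℕ} (hp : Odd p) (ζ : F) (R : ValuationSubring F) : NX p ζ R :=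
  fun _ hP hle => absurd hle (not_le_of_odd hp (pow_mem_TR p ζ R) hP)

/-- `|1 - ζ| = 1` at places with `|p| = 1` -/
lemma lam_of_pv {p : ℕ} (hp : p.Prime) {ζ : F} (hζ : IsPrimitiveRoot ζ p)
    {R : ValuationSubring F} (hR : R.valuation (p : F) = 1) : R.valuation (1 - ζ) = 1 := by
  obtain ⟨z, rfl⟩ : ∃ z : Fˣ, (z : F) = ζ := ⟨Units.mk0 _ (hζ.ne_zero hp.ne_zero), Units.val_mk0 _⟩
  have hz : IsPrimitiveRoot z p := by rwa [IsPrimitiveRoot.coe_units_iff] at hζ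
  have h1 := Pool.Agent.Helper58.ET.val_p hp hz R
  rw [hR] at h1
  have h2 : p - 1 ≠ 0 := by have := hp.one_lt; omega
  exact (pow_eq_one_iff_of_nonneg zero_le h2).1 h1.symm

/-- `Sm` at places with `|p| = 1` -/
lemma sm_of_pv {p : ℕ} (hp : p.Prime) {ζ : F} (hζ : IsPrimitiveRoot ζ p)
    {R : ValuationSubring F} (hR : R.valuation (p : F) = 1) {x : F} :
    Sm p ζ R x ↔ R.valuation x < 1 := by
  unfold Sm
  rw [lam_of_pv hp hζ hR, one_pow]

lemma val_of_le {R S : ValuationSubring F} (h : R ≤ S) {x : F} (hx : R.valuation x = 1) :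
    S.valuation x = 1 := by
  have h0 : x ≠ 0 := by
    rintro rfl
    rw [map_zero] at hx
    exact zero_ne_one hx
  rw [Pool.Agent.Helper58.EU.val_eq_one_iff h0] at hx ⊢
  exact ⟨h hx.1, h hx.2⟩

/-- places of type `V1` are top -/
lemma V1.top {p : ℕ} (hp : p.Prime) {ζ : F} (hζ : IsPrimitiveRoot ζ p)
    {R : ValuationSubring F} (hR : V1 p ζ R) : Top ζ R := by
  intro S hS
  have h1 := val_of_le hS.le (lam_of_pv hp hζ hR.pv)
  rw [Pool.Agent.Helper58.EU.val_eq_one_iff] at h1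
  · exact h1.2
  · intro e
    rw [e, map_zero] at h1
    exact zero_ne_one h1

/-- places of type `V2` are top -/
lemma V2.top {p : ℕ} (hp : p.Prime) {ζ : F} (hζ : IsPrimitiveRoot ζ p)
    {R : ValuationSubring F} (hR : V2 p R) : Top ζ R := by
  intro S hS
  obtain ⟨π, h1, h2, ⟨e, he⟩, -⟩ := hR.unif
  obtain ⟨y, hyS, hyR⟩ := SetLike.exists_of_lt hS
  have hy0 : y ≠ 0 := by
    rintro rfl
    exact hyR R.zero_mem
  have hπ0 : (π : F) ≠ 0 := π.ne_zero
  have h3 : R.valuation y⁻¹ < 1 := by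
    rw [map_inv₀]
    apply inv_lt_one_of_one_lt₀
    rw [← not_le, R.valuation_le_one_iff]
    exact hyR
  have h4 := h2 _ h3
  have h5 : (π : F)⁻¹ ∈ S := by
    have h6 : y⁻¹ / π ∈ R := by
      rw [← R.valuation_le_one_iff, map_div₀]
      exact div_le_one_of_le₀ h4 zero_le
    have h7 := S.mul_mem _ _ hyS (hS.le h6)
    have h8 : y * (y⁻¹ / π) = (π : F)⁻¹ := by field_simp
    rwa [h8] at h7
  have hl0 : (1 : F) - ζ ≠ 0 := sub_ne_zero.2 (hζ.ne_one hp.one_lt).symm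
  have h9 : (π : F) ^ e / (1 - ζ) ∈ R := by
    rw [← R.valuation_le_one_iff, map_div₀, map_pow]
    apply div_le_one_of_le₀ _ zero_le
    refine he.trans ?_
    obtain ⟨z, rfl⟩ : ∃ z : Fˣ, (z : F) = ζ :=
      ⟨Units.mk0 _ (hζ.ne_zero hp.ne_zero), Units.val_mk0 _⟩
    have hz : IsPrimitiveRoot z p := by rwa [IsPrimitiveRoot.coe_units_iff] at hζ
    rw [Pool.Agent.Helper58.ET.val_p hp hz R]
    have hz1 : R.valuation (1 - (z : F)) ≤ 1 := lam_le hp.ne_zero hζ.pow_eq_one R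
    have h2 : p - 1 ≠ 0 := by have := hp.one_lt; omega
    exact pow_le_of_le_one zero_le hz1 h2
  have h10 := S.mul_mem _ _ (pow_mem h5 e) (hS.le h9)
  have h11 : ((π : F)⁻¹) ^ e * ((π : F) ^ e / (1 - ζ)) = (1 - ζ)⁻¹ := by
    have := pow_ne_zero e hπ0
    rw [inv_pow, div_eq_mul_inv, ← mul_assoc, inv_mul_cancel₀ this, one_mul]
  rwa [h11] at h10

lemma Pl.top {p : ℕ} (hp : p.Prime) {ζ : F} (hζ : IsPrimitiveRoot ζ p)
    {R : ValuationSubring F} (hR : Pl p ζ R) : Top ζ R :=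
  hR.elim (fun h => h.top hp hζ) (fun h => h.top hp hζ)

end

theorem t_PLTOP : S_PLTOP := fun _ _ _ _ _ hζ _ hR => hR.top Fact.out hζ

end Pool.Agent.ETC
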