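import Mathlib
import Pool.Agent.Helper39.FAM.Pl

set_option autoImplicit false

/-! # Wild pieces are places of type `V2` -/

namespace Pool.Agent.Helper39.FAM

open Pool.Agent.Y920.EP Pool.Agent.Helper58.EB Pool.Agent.Helper58.ET Pool.Agent.Helper58.EU
open Pool.Agent.ETC (TR V1 V2 NX)
open scoped TensorProduct

section

variable {F : Type} [Field F] {A₀ : Type} [CommGroup A₀] {φ₀ : Fˣ →* A₀}
  {p : ℕ} (hp : p.Prime) {ζ : Fˣ} (hζ : IsPrimitiveRoot ζ p)
  (O : ValuationSubring F)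

lemma bd_inv {O : ValuationSubring F} {t : Fˣ} (h : Bd p O t) : Bd p O t⁻¹ := by
  obtain ⟨⟨i, hi⟩, j, hj⟩ := h
  have h0 : 0 < O.valuation (t : F) := Pool.Agent.Helper58.EB.val_pos O t
  refine ⟨⟨j, ?_⟩, i, ?_⟩
  · rw [Units.val_inv_eq_inv_val, map_inv₀, ← one_div, le_div_iff₀ h0]
    exact hj
  · rw [Units.val_inv_eq_inv_val, map_inv₀, mul_inv_le_iff₀ h0, one_mul]
    exact hi

include hp hζ in
/-- the values are bounded away from one -/
lemma val_bound' [Finite A₀] (hk : ∀ u : Fˣ, φ₀ u = 1 ↔ ∃ c : Fˣ, u = c ^ p)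
    (harch : ∀ x : F, O.valuation x < 1 → ∀ y : Fˣ, Bd p O y → ∃ j : ℕ,
      O.valuation x ^ j ≤ O.valuation (y : F))
    {c : Fˣ} (hcb : Bd p O c) (hc : ∀ f : Fˣ, O.valuation (c : F) ≠ O.valuation (f : F) ^ p)
    {y : Fˣ} (hy : O.valuation (y : F) < 1) :
    O.valuation (y : F) ^ (Nat.card A₀ + 1) ≤ O.valuation (1 - (ζ : F)) := by
  classical
  by_contra hcon
  rw [not_le] at hcon
  -- a class close to one
  have h1 : ∃ c' : Fˣ, (∀ f : Fˣ, O.valuation (c' : F) ≠ O.valuation (f : F) ^ p) ∧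
      O.valuation (c' : F) < 1 ∧ Bd p O c' := by
    rcases lt_trichotomy (O.valuation (c : F)) 1 with h | h | h
    · exact ⟨c, hc, h, hcb⟩
    · exact absurd (hc 1) (by simp [h])
    · refine ⟨c⁻¹, fun f hf => hc f⁻¹ ?_, ?_, ?_⟩
      · rw [Units.val_inv_eq_inv_val, map_inv₀] at hf ⊢
        rw [inv_pow, ← hf, inv_inv]
      · rw [Units.val_inv_eq_inv_val, map_inv₀]
        exact inv_lt_one_of_one_lt₀ h
      · exact bd_inv hcb
  obtain ⟨c₁, hc₁, hc₁', hc₁b⟩ := h1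
  have hyp : O.valuation (((y ^ p : Fˣ)) : F) < 1 := by
    rw [Units.val_pow_eq_pow_val, map_pow]
    exact pow_lt_one₀ zero_le hy hp.ne_zero
  have hex : ∃ j : ℕ, O.valuation ((y ^ p : Fˣ) : F) ^ j < O.valuation (c₁ : F) := by
    obtain ⟨j, hj⟩ := harch _ hyp c₁ hc₁b
    refine ⟨j + 1, ?_⟩
    rw [pow_succ]
    exact (mul_lt_of_lt_one_right (pow_pos (val_pos O _) j) hyp).trans_le hj
  obtain ⟨n, hn, hmin⟩ : ∃ n : ℕ, O.valuation ((y ^ p : Fˣ) : F) ^ n < O.valuation (c₁ : F) ∧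
      ∀ m < n, ¬ O.valuation ((y ^ p : Fˣ) : F) ^ m < O.valuation (c₁ : F) :=
    ⟨Nat.find hex, Nat.find_spec hex, fun m hm => Nat.find_min hex hm⟩
  have hn0 : n ≠ 0 := by
    rintro rfl
    rw [pow_zero] at hn
    exact absurd hc₁' (not_lt.2 hn.le)
  obtain ⟨k, rfl⟩ := Nat.exists_eq_succ_of_ne_zero hn0
  have hk1 := hmin k (Nat.lt_succ_self k)
  rw [not_lt] at hk1
  rw [Nat.succ_eq_add_one] at hn
  obtain ⟨c₂, hc₂⟩ : ∃ c₂ : Fˣ, c₂ = c₁ / (y ^ p) ^ k := ⟨_, rfl⟩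
  have hyk : 0 < O.valuation ((y ^ p : Fˣ) : F) ^ k := pow_pos (val_pos O _) k
  have hc₂v : O.valuation (c₂ : F) = O.valuation (c₁ : F) / O.valuation ((y ^ p : Fˣ) : F) ^ k := by
    rw [hc₂, Units.val_div_eq_div_val, map_div₀, Units.val_pow_eq_pow_val, map_pow]
  have hne : ∀ f : Fˣ, O.valuation (c₂ : F) ≠ O.valuation (f : F) ^ p := by
    intro f hf
    apply hc₁ (f * y ^ k)
    rw [hc₂v, div_eq_iff hyk.ne'] at hf
    rw [hf, Units.val_mul, map_mul, mul_pow, Units.val_pow_eq_pow_val, Units.val_pow_eq_pow_val,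
      map_pow, map_pow, ← pow_mul, ← pow_mul, mul_comm p k]
  have h2 : O.valuation (c₂ : F) < 1 := by
    refine lt_of_le_of_ne ?_ ?_
    · rw [hc₂v, div_le_one₀ hyk]
      exact hk1
    · intro e
      exact hne 1 (by rw [e]; simp)
  have h3 : O.valuation (y : F) ^ p < O.valuation (c₂ : F) := by
    rw [hc₂v, lt_div_iff₀ hyk, mul_comm]
    rw [pow_succ, Units.val_pow_eq_pow_val, map_pow] at hn
    rw [Units.val_pow_eq_pow_val, map_pow]
    exact hn
  -- the values of `c₂ y ^ (p i)`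
  have h4 : ∀ i : ℕ, O.valuation ((c₂ : F) * (y : F) ^ (p * i)) =
      O.valuation (c₂ : F) * O.valuation (y : F) ^ (p * i) := fun i => by rw [map_mul, map_pow]
  have h5 : ∀ i : ℕ, O.valuation ((c₂ : F) * (y : F) ^ (p * i)) < 1 := by
    intro i
    rw [h4]
    exact mul_lt_one_of_nonneg_of_lt_one_left zero_le h2 (pow_le_one₀ zero_le hy.le)
  choose u hu hu1 using fun i : ℕ => exists_unit_one_add O (h5 i)
  have h6 : ∃ i j : Fin (Nat.card A₀ + 1), i ≠ j ∧ φ₀ (u i) = φ₀ (u j) := by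
    have _ := Fintype.ofFinite A₀
    apply Fintype.exists_ne_map_eq_of_card_lt
    rw [Fintype.card_fin, Nat.card_eq_fintype_card]
    exact Nat.lt_succ_self _
  have h7 : ∃ i j : ℕ, i < j ∧ i ≤ Nat.card A₀ ∧ φ₀ (u i) = φ₀ (u j) := by
    obtain ⟨i, j, hij, e⟩ := h6
    rcases lt_or_gt_of_ne hij with h | h
    · exact ⟨i, j, h, by omega, e⟩
    · exact ⟨j, i, h, by omega, e.symm⟩
  obtain ⟨i, j, hij, hiA, e⟩ := h7
  have h8 : O.valuation ((c₂ : F) * (y : F) ^ (p * j)) < O.valuation ((c₂ : F) * (y : F) ^ (p * i))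
      := by
    rw [h4, h4]
    refine mul_lt_mul_of_pos_left ?_ (val_pos O _)
    refine pow_lt_pow_right_of_lt_one₀ (val_pos O _) hy ?_
    exact Nat.mul_lt_mul_of_pos_left hij hp.pos
  have h9 : O.valuation ((c₂ : F) * (y : F) ^ (p * i) - (c₂ : F) * (y : F) ^ (p * j)) =
      O.valuation (c₂ : F) * O.valuation (y : F) ^ (p * i) := by
    rw [Valuation.map_sub_eq_of_lt_left _ h8, h4]
  obtain ⟨w, hw⟩ := close_val hp hζ O hk (hu i) (hu j) (h5 j) e (by
    rw [h9]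
    calc O.valuation (1 - (ζ : F)) ^ p < (O.valuation (y : F) ^ (Nat.card A₀ + 1)) ^ p :=
          pow_lt_pow_left₀ hcon zero_le hp.ne_zero
      _ ≤ O.valuation (y : F) ^ (p * (i + 1)) := by
          rw [← pow_mul]
          refine pow_le_pow_right_of_le_one' hy.le ?_
          rw [mul_comm]
          exact Nat.mul_le_mul_right p (by omega)
      _ = O.valuation (y : F) ^ p * O.valuation (y : F) ^ (p * i) := by
          rw [← pow_add]
          congr 1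
          ring
      _ ≤ O.valuation (c₂ : F) * O.valuation (y : F) ^ (p * i) := mul_le_mul_left h3.le _)
  rw [h9] at hw
  apply hne (w / y ^ i)
  have hyi : O.valuation (y : F) ^ (p * i) ≠ 0 := pow_ne_zero _ (val_ne O y)
  rw [Units.val_div_eq_div_val, map_div₀, div_pow, ← hw, Units.val_pow_eq_pow_val, map_pow,
    ← pow_mul, mul_comm i p, mul_div_cancel_right₀ _ hyi]

include hp hζ in
/-- there are uniformizers -/
lemma exists_unif' [Finite A₀] (hk : ∀ u : Fˣ, φ₀ u = 1 ↔ ∃ c : Fˣ, u = c ^ p)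
    (harch : ∀ x : F, O.valuation x < 1 → ∀ y : Fˣ, Bd p O y → ∃ j : ℕ,
      O.valuation x ^ j ≤ O.valuation (y : F))
    {c : Fˣ} (hcb : Bd p O c) (hc : ∀ f : Fˣ, O.valuation (c : F) ≠ O.valuation (f : F) ^ p)
    (hl : O.valuation (1 - (ζ : F)) < 1) :
    ∃ ϖ : Fˣ, O.valuation (ϖ : F) < 1 ∧
      ∀ x : F, O.valuation x < 1 → O.valuation x ≤ O.valuation (ϖ : F) := by
  by_contra hcon
  push Not at hcon
  have h1 : ∀ y : Fˣ, O.valuation (y : F) < 1 → ∃ y' : Fˣ, O.valuation (y' : F) < 1 ∧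
      O.valuation (y : F) ≤ O.valuation (y' : F) ^ 2 := by
    intro y hy
    obtain ⟨x, hx, hyx⟩ := hcon y hy
    have hx0 : x ≠ 0 := by
      rintro rfl
      rw [map_zero] at hyx
      exact absurd hyx (not_lt.2 zero_le)
    obtain ⟨x', rfl⟩ : ∃ x' : Fˣ, (x' : F) = x := ⟨Units.mk0 _ hx0, Units.val_mk0 _⟩
    have h2 : O.valuation ((y / x' : Fˣ) : F) < 1 := by
      rw [Units.val_div_eq_div_val, map_div₀, div_lt_one₀ (val_pos O x')]
      exact hyx
    have h3 : O.valuation (y : F) = O.valuation (x' : F) * O.valuation ((y / x' : Fˣ) : F) := by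
      rw [← map_mul, ← Units.val_mul, mul_div_cancel]
    rcases le_total (O.valuation (x' : F)) (O.valuation ((y / x' : Fˣ) : F)) with h | h
    · refine ⟨y / x', h2, ?_⟩
      rw [h3, pow_two]
      exact mul_le_mul_left h _
    · refine ⟨x', hx, ?_⟩
      rw [h3, pow_two]
      exact mul_le_mul_right h _
  have hl0 := lam_ne hp hζ
  have h2 : ∀ n : ℕ, ∃ y : Fˣ, O.valuation (y : F) < 1 ∧
      O.valuation (1 - (ζ : F)) ≤ O.valuation (y : F) ^ 2 ^ n := by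
    intro n
    induction n with
    | zero => exact ⟨Units.mk0 _ hl0, by rw [Units.val_mk0]; exact hl, by rw [Units.val_mk0]; simp⟩
    | succ n ih =>
      obtain ⟨y, hy, hy1⟩ := ih
      obtain ⟨y', hy', hy1'⟩ := h1 y hy
      refine ⟨y', hy', hy1.trans ?_⟩
      rw [pow_succ 2 n, mul_comm (2 ^ n) 2, pow_mul]
      exact pow_le_pow_left₀ zero_le hy1' _
  obtain ⟨y, hy, hy1⟩ := h2 (Nat.card A₀ + 1)
  have h3 := val_bound' hp hζ O hk harch hcb hc hy
  have h4 : O.valuation (y : F) ^ 2 ^ (Nat.card A₀ + 1) < O.valuation (y : F) ^ (Nat.card A₀ + 1) :=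
    pow_lt_pow_right_of_lt_one₀ (val_pos O _) hy Nat.lt_two_pow_self
  exact absurd (hy1.trans_lt (h4.trans_le h3)) (lt_irrefl _)

/-- all values are powers of the value of a uniformizer -/
lemma exists_zpow' (harch : ∀ x : F, O.valuation x < 1 → ∀ y : Fˣ, Bd p O y → ∃ j : ℕ,
      O.valuation x ^ j ≤ O.valuation (y : F)) {ϖ : Fˣ} (hϖ : O.valuation (ϖ : F) < 1)
    (hmax : ∀ x : F, O.valuation x < 1 → O.valuation x ≤ O.valuation (ϖ : F)) (a : Fˣ)
    (hab : Bd p O a) :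
    ∃ n : ℤ, O.valuation (a : F) = O.valuation (ϖ : F) ^ n := by
  classical
  have key : ∀ a : Fˣ, Bd p O a → O.valuation (a : F) ≤ 1 → ∃ n : ℕ,
      O.valuation (a : F) = O.valuation (ϖ : F) ^ n := by
    intro a hab ha
    have hex := harch _ hϖ a hab
    obtain ⟨n, hn, hmin⟩ : ∃ n : ℕ, O.valuation (ϖ : F) ^ n ≤ O.valuation (a : F) ∧
        ∀ m < n, ¬ O.valuation (ϖ : F) ^ m ≤ O.valuation (a : F) :=
      ⟨Nat.find hex, Nat.find_spec hex, fun m hm => Nat.find_min hex hm⟩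
    refine ⟨n, le_antisymm ?_ hn⟩
    rcases Nat.eq_zero_or_pos n with rfl | hpos
    · rw [pow_zero]
      exact ha
    obtain ⟨m, rfl⟩ := Nat.exists_eq_succ_of_ne_zero hpos.ne'
    have h1 := hmin m (Nat.lt_succ_self m)
    rw [not_le] at h1
    have h0 : 0 < O.valuation (ϖ : F) ^ m := pow_pos (val_pos O _) m
    have h2 := hmax ((a : F) / ϖ ^ m) (by
      rw [map_div₀, map_pow, div_lt_one₀ h0]
      exact h1)
    rw [map_div₀, map_pow, div_le_iff₀ h0] at h2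
    rw [Nat.succ_eq_add_one, pow_succ, mul_comm]
    exact h2
  rcases le_total (O.valuation (a : F)) 1 with h | h
  · obtain ⟨n, hn⟩ := key a hab h
    exact ⟨n, by rw [hn, zpow_natCast]⟩
  · obtain ⟨n, hn⟩ := key a⁻¹ (bd_inv hab) (by
      rw [Units.val_inv_eq_inv_val, map_inv₀]
      exact inv_le_one_of_one_le₀ h)
    refine ⟨-n, ?_⟩
    rw [Units.val_inv_eq_inv_val, map_inv₀] at hn
    rw [zpow_neg, zpow_natCast, ← hn, inv_inv]


/-- the wild case is of type `V2` -/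
theorem v2_of_wd [Finite A₀] (hp : p.Prime) (hζ : IsPrimitiveRoot ζ p)
    (hk : ∀ u : Fˣ, φ₀ u = 1 ↔ ∃ c : Fˣ, u = c ^ p) {T : Subgroup Fˣ} (hW : Wd p ζ T O)
    (hco : ∀ c : Fˣ, ∃ f : Fˣ, Bd p O (c * f ^ p)) : V2 p O := by
  have harch : ∀ x : F, O.valuation x < 1 → ∀ y : Fˣ, Bd p O y → ∃ j : ℕ,
      O.valuation x ^ j ≤ O.valuation (y : F) := by
    rintro x hx y ⟨⟨i, hi⟩, -⟩
    obtain ⟨j, hj⟩ := hW.arch x hx
    refine ⟨j * i, ?_⟩
    rw [pow_mul]
    exact (pow_le_pow_left₀ zero_le hj i).trans hi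
  obtain ⟨c, hcb, hc⟩ := hW.nu
  have hc' : ∀ f : Fˣ, O.valuation (c : F) ≠ O.valuation (f : F) ^ p := by
    intro f hf
    apply hc f⁻¹
    rw [Units.val_mul, map_mul, hf, Units.val_pow_eq_pow_val, map_pow, Units.val_inv_eq_inv_val,
      map_inv₀, ← mul_pow, mul_inv_cancel₀ (Pool.Agent.Helper58.EB.val_ne O f), one_pow]
  have hl := val_lam' hp hζ O hW.pv
  obtain ⟨ϖ, h1, h2⟩ := exists_unif' hp hζ O hk harch hcb hc' hl
  have hp0 : (p : F) ≠ 0 := by
    have : NeZero p := ⟨hp.ne_zero⟩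
    have hζ' : IsPrimitiveRoot (ζ : F) p := by rwa [IsPrimitiveRoot.coe_units_iff]
    exact hζ'.neZero'.ne
  refine ⟨hW.pv, finite_res hp hζ O hk hl h1 h2, ϖ, h1, h2, ?_, ?_⟩
  · exact hW.arch _ h1
  · intro x
    obtain ⟨f, hf⟩ := hco x
    obtain ⟨n, hn⟩ := exists_zpow' O harch h1 h2 _ hf
    have hϖ0 : O.valuation (ϖ : F) ≠ 0 := Pool.Agent.Helper58.EB.val_ne O ϖ
    have hf0 : O.valuation (f : F) ≠ 0 := Pool.Agent.Helper58.EB.val_ne O f
    refine ⟨f⁻¹ * ϖ ^ (-(n.natAbs : ℤ)), (n + p * n.natAbs).toNat, ?_⟩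
    have h3 : (((n + p * n.natAbs).toNat : ℕ) : ℤ) = n + p * n.natAbs := by
      apply Int.toNat_of_nonneg
      have h4 : (1 : ℤ) ≤ p := by exact_mod_cast hp.one_lt.le
      have h5 : -(n.natAbs : ℤ) ≤ n := by omega
      nlinarith [Int.natCast_nonneg n.natAbs]
    rw [← zpow_natCast (O.valuation (ϖ : F)), h3, Units.val_mul, map_mul, mul_pow,
      Units.val_zpow_eq_zpow_val, map_zpow₀, ← zpow_natCast (O.valuation (ϖ : F) ^ (_ : ℤ)) p,
      ← zpow_mul, mul_assoc, ← zpow_add₀ hϖ0]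
    have h6 : -(n.natAbs : ℤ) * p + (n + p * n.natAbs) = n := by ring
    rw [h6, ← hn, Units.val_mul, map_mul, Units.val_inv_eq_inv_val, map_inv₀,
      Units.val_pow_eq_pow_val, map_pow, inv_pow]
    field_simp

end

end Pool.Agent.Helper39.FAM
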