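import Mathlib
import Pool.Agent.Helper39.FAM.Wild

set_option autoImplicit false

/-! # The local structure theorem with the coarse condition -/

namespace Pool.Agent.Helper39.FAM

open Pool.Agent.Y920.EP Pool.Agent.Helper58.EB Pool.Agent.Helper58.ET Pool.Agent.Helper58.EU
open Pool.Agent.ETC (TR V1 V2 NX)
open scoped TensorProduct

section

variable {F : Type} [Field F] {p : ℕ}

/-- the local structure theorem -/
theorem top3 [Fact p.Prime] {A : Type} [CommGroup A] [Finite A] {φ : Fˣ →* A}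
    (hφ : Function.Surjective φ) {ζ : Fˣ} (hζ : IsPrimitiveRoot ζ p)
    (hk : ∀ u : Fˣ, φ u = 1 ↔ ∃ c : Fˣ, u = c ^ p) :
    ∃ (I : Type) (_ : Finite I) (T : I → Subgroup Fˣ),
      (∀ i, ∀ c : Fˣ, c ^ p ∈ T i) ∧
      (∀ u : I → Fˣ, ∃ y : Fˣ, ∀ i, y / u i ∈ T i) ∧
      (∀ t : Fˣ, (∀ i, t ∈ T i) ↔ φ t ∈ Rad φ) ∧
      (∀ x, (∀ i, x ∈ St φ ⊔ Lt ((T i).map φ)) → x ∈ St φ) ∧
      ∀ i, (∃ O, Tm p (T i) O) ∨ (∃ O, Wd p ζ (T i) O ∧ ∀ c : Fˣ, ∃ f : Fˣ, Bd p O (c * f ^ p)) ∨
        (p = 2 ∧ Ordg (T i)) := by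
  classical
  have hp : p.Prime := Fact.out
  obtain ⟨I, hI, L, a1, a2, a3, a4⟩ := top hp hφ hζ hk
  have hT0 : ∀ i, ∀ c : Fˣ, c ^ p ∈ (L i).comap φ := fun i c => by
    rw [Subgroup.mem_comap, (hk _).2 ⟨c, rfl⟩]
    exact one_mem _
  have hT1 : ∀ u : I → Fˣ, ∃ y : Fˣ, ∀ i, y / u i ∈ (L i).comap φ := by
    intro u
    obtain ⟨y, hy⟩ := a1 fun i => φ (u i)
    obtain ⟨y, rfl⟩ := hφ y
    exact ⟨y, fun i => by rw [Subgroup.mem_comap, map_div]; exact hy i⟩
  have hmap : ∀ i, ((L i).comap φ).map φ = L i := fun i => Subgroup.map_comap_eq_self_of_surjective hφ _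
  -- local elements are orthogonal to local relations
  have horth : ∀ i, ∀ c' t : Fˣ, (∀ j, j ≠ i → c' ∈ (L j).comap φ) → t ∈ (L i).comap φ →
      Additive.ofMul (φ t) ⊗ₜ[ℤ] Additive.ofMul (φ c') ∈ St φ ∧
        Additive.ofMul (φ c') ⊗ₜ[ℤ] Additive.ofMul (φ t) ∈ St φ := by
    intro i c' t hc' ht
    constructor
    · refine a3 _ fun j => AddSubgroup.mem_sup_right ?_
      by_cases hj : j = i
      · subst hj
        exact AddSubgroup.subset_closure ⟨φ t, ht, φ c', Or.inl rfl⟩
      · exact AddSubgroup.subset_closure ⟨φ c', hc' j hj, φ t, Or.inr rfl⟩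
    · refine a3 _ fun j => AddSubgroup.mem_sup_right ?_
      by_cases hj : j = i
      · subst hj
        exact AddSubgroup.subset_closure ⟨φ t, ht, φ c', Or.inr rfl⟩
      · exact AddSubgroup.subset_closure ⟨φ c', hc' j hj, φ t, Or.inl rfl⟩
  have hloc : ∀ i, ∀ c : Fˣ, ∃ c' : Fˣ, c' / c ∈ (L i).comap φ ∧
      ∀ j, j ≠ i → c' ∈ (L j).comap φ := by
    intro i c
    obtain ⟨y, hy⟩ := hT1 (Function.update (fun _ => 1) i c)
    refine ⟨y, ?_, fun j hj => ?_⟩
    · have := hy i
      rwa [Function.update_self] at this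
    · have := hy j
      rwa [Function.update_of_ne hj, div_one] at this
  -- the tame case
  have htame : ∀ i, ∀ O : ValuationSubring F, O.valuation (p : F) = 1 →
      (∀ x : F, O.valuation x < 1 → ∃ u : Fˣ, (u : F) = 1 + x ∧ u ∈ (L i).comap φ) →
      (∃ c : Fˣ, ∀ u : Fˣ, O.valuation (u : F) = 1 → c / u ∉ (L i).comap φ) →
      Tm p ((L i).comap φ) O := by
    intro i O hpO hone hnu
    obtain ⟨c, hc⟩ := hnu
    have hCT : ∀ t : Fˣ, t ∈ Ct p O → t ∈ (L i).comap φ := by
      rintro t ⟨f, x, hx, ht⟩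
      obtain ⟨u, hu, hu1⟩ := hone x hx
      have : t = f ^ p * u := by
        ext
        rw [ht, Units.val_mul, hu, Units.val_pow_eq_pow_val]
      rw [this]
      exact mul_mem (hT0 i f) hu1
    refine ⟨hpO, fun t => ⟨fun ht => ?_, hCT t⟩, c, fun f hf => ?_⟩
    · obtain ⟨c', hc1, hc2⟩ := hloc i c
      obtain ⟨k, hk1⟩ := lemN (x := t) hφ hk O (c := c') (by
        intro f hf
        apply hc _ hf
        have h1 : c / (c' * f ^ p) = (c' / c)⁻¹ * (f ^ p)⁻¹ := by
          rw [inv_div, div_mul_eq_div_div, div_eq_mul_inv (c / c')]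
        rw [h1]
        exact mul_mem (inv_mem hc1) (inv_mem (hT0 i f))) (horth i c' t hc2 ht).2
      have h2 : (-c') ^ k ∈ (L i).comap φ := by
        have := div_mem ht (hCT _ hk1)
        rwa [div_div_cancel] at this
      by_cases hkp : (p : ℤ) ∣ k
      · obtain ⟨m, rfl⟩ := hkp
        have h3 : (-c') ^ ((p : ℤ) * m) ∈ Ct p O := by
          rw [zpow_mul', zpow_natCast]
          exact pow_mem_Cl _
        have := mul_mem hk1 h3
        rwa [div_mul_cancel] at this
      · exfalso
        have hco : IsCoprime (p : ℤ) k := (Nat.prime_iff_prime_int.1 hp).coprime_iff_not_dvd.2 hkp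
        obtain ⟨a, b, hab⟩ := hco
        have h3 : -c' ∈ (L i).comap φ := by
          have h4 : -c' = ((-c') ^ a) ^ p * ((-c') ^ k) ^ b := by
            rw [← zpow_natCast, ← zpow_mul, ← zpow_mul, ← zpow_add, mul_comm k b, hab, zpow_one]
          rw [h4]
          exact mul_mem (hT0 i _) (Subgroup.zpow_mem _ h2 b)
        apply hc (-1) (by rw [Units.val_neg, Units.val_one, Valuation.map_neg, map_one])
        have h5 := div_mem h3 hc1
        have h6 : c / -1 = -c' / (c' / c) := by
          ext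
          simp only [Units.val_div_eq_div_val, Units.val_neg, Units.val_one]
          have h7 : (c : F) ≠ 0 := c.ne_zero
          have h8 : (c' : F) ≠ 0 := c'.ne_zero
          field_simp
        rw [h6]
        exact h5
    · apply hc _ hf
      rw [div_mul_cancel_left]
      exact inv_mem (hT0 i f)
  refine ⟨I, hI, fun i => (L i).comap φ, hT0, hT1, fun t => ?_, fun x hx => ?_, fun i => ?_⟩
  · exact a2 (φ t)
  · apply a3
    intro i
    have := hx i
    rwa [hmap] at this
  · rcases a4 i with ⟨O, hO⟩ | ⟨O, hO⟩ | ⟨h2, hO⟩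
    · refine Or.inl ⟨O, htame i O hO.pv hO.one ?_⟩
      obtain ⟨c, hc⟩ := hO.nu
      refine ⟨c, fun u hu h1 => hc u hu ?_⟩
      rw [Subgroup.mem_comap, map_div] at h1
      exact h1
    · have hpF : (p : F) ≠ 0 := by
        have : NeZero p := ⟨hp.ne_zero⟩
        have hζ' : IsPrimitiveRoot (ζ : F) p := by rwa [IsPrimitiveRoot.coe_units_iff]
        exact hζ'.neZero'.ne
      have hv0 : O.valuation (p : F) ≠ 0 := (Valuation.ne_zero_iff _).2 hpF
      have hlam : ∀ x : F, (Ot p O hO.pv.le).valuation x < 1 →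
          O.valuation x < O.valuation (1 - (ζ : F)) ^ p := by
        intro x hx
        refine (Ot_lt hx 2 hv0).trans_le ?_
        have h1 : O.valuation (1 - (ζ : F)) < 1 := val_lam' hp hζ O hO.pv
        rw [val_p hp hζ O, ← pow_mul]
        refine pow_le_pow_right_of_le_one' h1.le ?_
        have := hp.two_le
        omega
      have hCT : ∀ t : Fˣ, (∃ (f : Fˣ) (x : F), O.valuation x < O.valuation (1 - (ζ : F)) ^ p ∧
          (t : F) = (f : F) ^ p * (1 + x)) → t ∈ (L i).comap φ := by
        rintro t ⟨f, x, hx, ht⟩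
        obtain ⟨u, hu, hu1⟩ := hO.one x hx
        have : t = f ^ p * u := by
          ext
          rw [ht, Units.val_mul, hu, Units.val_pow_eq_pow_val]
        rw [this]
        exact mul_mem (hT0 i f) hu1
      by_cases hc : ∃ c : Fˣ, ∀ u : Fˣ, (Ot p O hO.pv.le).valuation (u : F) = 1 →
          c / u ∉ (L i).comap φ
      · left
        refine ⟨Ot p O hO.pv.le, htame i _ ?_ ?_ hc⟩
        · rw [val_eq_one_iff hpF, mem_Ot, mem_Ot]
          refine ⟨⟨0, by rw [pow_zero, one_mul]; exact hO.pv.le⟩, ⟨1, ?_⟩⟩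
          rw [pow_one, ← map_mul, mul_inv_cancel₀ hpF, map_one]
        · intro x hx
          exact hO.one x (hlam x hx)
      · right
        left
        push Not at hc
        have hcl : ∀ t ∈ (L i).comap φ, ∃ f : Fˣ,
            (Ot p O hO.pv.le).valuation ((t * f ^ p : Fˣ) : F) = 1 := by
          intro t ht
          by_contra hcon
          push Not at hcon
          obtain ⟨c, hcb, hc2⟩ := hO.nu
          obtain ⟨c', hc1, hc3⟩ := hloc i c
          obtain ⟨k, hk1⟩ := lemN (x := c') hφ hk (Ot p O hO.pv.le) hcon (horth i c' t hc3 ht).1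
          obtain ⟨f, x, hx, hk2⟩ := hk1
          have h2 : c' / (-t) ^ k ∈ (L i).comap φ := hCT _ ⟨f, x, hlam x hx, hk2⟩
          have h3 : c / (-1) ^ k ∈ (L i).comap φ := by
            have h4 : (-t) ^ k = (-1) ^ k * t ^ k := by
              rw [← mul_zpow, neg_one_mul]
            rw [h4] at h2
            have h5 := mul_mem (div_mem h2 hc1) (Subgroup.zpow_mem _ ht k)
            have h6 : c / (-1) ^ k = c' / ((-1) ^ k * t ^ k) / (c' / c) * t ^ k := by
              rw [div_div_div_cancel_left, div_mul_eq_mul_div, mul_div_mul_right_eq_div]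
            rw [h6]
            exact h5
          apply hc2 ((-1) ^ k) _ (by
            rw [Subgroup.mem_comap, map_div] at h3
            exact h3)
          rw [Units.val_zpow_eq_zpow_val, map_zpow₀, Units.val_neg, Units.val_one,
            Valuation.map_neg, map_one, one_zpow]
        refine ⟨O, ⟨hO.pv, hO.arch, fun t => ⟨fun ht => ?_, hCT t⟩, ?_⟩, fun c => ?_⟩
        · obtain ⟨f, hf⟩ := hcl t ht
          rw [Ot_unit] at hf
          obtain ⟨g, x, hx, hg⟩ := hO.cl _ hf (by
            rw [map_mul]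
            exact mul_mem ht (hT0 i f))
          refine ⟨g / f, x, hx, ?_⟩
          rw [Units.val_mul, Units.val_pow_eq_pow_val] at hg
          rw [Units.val_div_eq_div_val, div_pow, div_mul_eq_mul_div, ← hg, mul_div_cancel_right₀]
          exact pow_ne_zero _ f.ne_zero
        · obtain ⟨c, hcb, hc2⟩ := hO.nu
          refine ⟨c, hcb, fun f hf => hc2 _ hf ?_⟩
          have h1 : c / (c * f ^ p) ∈ (L i).comap φ := by
            rw [div_mul_cancel_left]
            exact inv_mem (hT0 i f)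
          rw [Subgroup.mem_comap, map_div] at h1
          exact h1
        · obtain ⟨u, hu, hcu⟩ := hc c
          obtain ⟨f, hf⟩ := hcl _ hcu
          refine ⟨f, ?_⟩
          rw [← Ot_unit (hp := hO.pv.le)]
          have h1 : c * f ^ p = c / u * f ^ p * u := by
            rw [mul_right_comm, div_mul_cancel]
          rw [h1, Units.val_mul, map_mul, hf, hu, mul_one]
    · exact Or.inr (Or.inr ⟨h2, hO⟩)


end

end Pool.Agent.Helper39.FAM
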