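import Mathlib
import Pool.Agent.Helper39.FAM.Top3

set_option autoImplicit false

/-! # Families of pieces of `K₂(F)/p` -/

namespace Pool.Agent.Helper39.FAM

open Pool.Agent.Y920.EP Pool.Agent.Helper58.EB Pool.Agent.Helper58.ET Pool.Agent.Helper58.EU
open Pool.Agent.ETC (TR V1 V2 NX)
open scoped TensorProduct

section

variable {F : Type} [Field F] {A : Type} [CommGroup A] {p : ℕ} {φ : Fˣ →* A}

/-- a family of pieces of `K₂(F)/p` -/
structure KF (p : ℕ) (φ : Fˣ →* A) {I : Type} (T : I → Subgroup Fˣ) : Prop where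
  pow : ∀ i, ∀ c : Fˣ, c ^ p ∈ T i
  onto : ∀ u : I → Fˣ, ∃ y : Fˣ, ∀ i, y / u i ∈ T i
  rad : ∀ t : Fˣ, (∀ i, t ∈ T i) ↔ φ t ∈ Rad φ
  glue : ∀ x, (∀ i, x ∈ St φ ⊔ Lt ((T i).map φ)) → x ∈ St φ

lemma lt_left {L : Subgroup A} {a : A} (ha : a ∈ L) (b : A) :
    Additive.ofMul a ⊗ₜ[ℤ] Additive.ofMul b ∈ Lt L :=
  AddSubgroup.subset_closure ⟨a, ha, b, Or.inl rfl⟩

lemma lt_right {L : Subgroup A} {a : A} (ha : a ∈ L) (b : A) :
    Additive.ofMul b ⊗ₜ[ℤ] Additive.ofMul a ∈ Lt L :=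
  AddSubgroup.subset_closure ⟨a, ha, b, Or.inr rfl⟩

lemma lt_mono {L M : Subgroup A} (h : L ≤ M) : Lt L ≤ Lt M := by
  unfold Lt
  rw [AddSubgroup.closure_le]
  rintro _ ⟨l, hl, a, rfl | rfl⟩
  · exact lt_left (h hl) a
  · exact lt_right (h hl) a

section

variable {I : Type} {T : I → Subgroup Fˣ}

/-- local elements are orthogonal to local relations -/
lemma KF.orth (h : KF p φ T) (i : I) {a t : Fˣ} (ha : ∀ j, j ≠ i → a ∈ T j) (ht : t ∈ T i) :
    Additive.ofMul (φ t) ⊗ₜ[ℤ] Additive.ofMul (φ a) ∈ St φ ∧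
      Additive.ofMul (φ a) ⊗ₜ[ℤ] Additive.ofMul (φ t) ∈ St φ := by
  constructor
  · refine h.glue _ fun j => AddSubgroup.mem_sup_right ?_
    by_cases hj : j = i
    · subst hj
      exact lt_left (Subgroup.mem_map_of_mem φ ht) _
    · exact lt_right (Subgroup.mem_map_of_mem φ (ha j hj)) _
  · refine h.glue _ fun j => AddSubgroup.mem_sup_right ?_
    by_cases hj : j = i
    · subst hj
      exact lt_right (Subgroup.mem_map_of_mem φ ht) _
    · exact lt_left (Subgroup.mem_map_of_mem φ (ha j hj)) _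

lemma KF.loc (h : KF p φ T) (i : I) (c : Fˣ) : ∃ c' : Fˣ, c' / c ∈ T i ∧
    ∀ j, j ≠ i → c' ∈ T j := by
  classical
  obtain ⟨y, hy⟩ := h.onto (Function.update (fun _ => 1) i c)
  refine ⟨y, ?_, fun j hj => ?_⟩
  · have := hy i
    rwa [Function.update_self] at this
  · have := hy j
    rwa [Function.update_of_ne hj, div_one] at this

/-- the components of a Steinberg relation are orthogonal -/
lemma KF.pr (h : KF p φ T) {u v : Fˣ} (huv : (u : F) + v = 1) (i : I) {u' v' : Fˣ}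
    (hu : u / u' ∈ T i) (hu' : ∀ j, j ≠ i → u' ∈ T j) (hv : v / v' ∈ T i) :
    Additive.ofMul (φ u') ⊗ₜ[ℤ] Additive.ofMul (φ v') ∈ St φ := by
  refine h.glue _ fun j => ?_
  by_cases hj : j = i
  · subst hj
    have e : Additive.ofMul (φ u') ⊗ₜ[ℤ] Additive.ofMul (φ v') =
        Additive.ofMul (φ u) ⊗ₜ[ℤ] Additive.ofMul (φ v) -
        Additive.ofMul (φ (u / u')) ⊗ₜ[ℤ] Additive.ofMul (φ v) -
        Additive.ofMul (φ u') ⊗ₜ[ℤ] Additive.ofMul (φ (v / v')) := by
      rw [MonoidHom.map_div φ u u', MonoidHom.map_div φ v v', ofMul_div, ofMul_div,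
        TensorProduct.sub_tmul, TensorProduct.tmul_sub]
      abel
    rw [e]
    refine sub_mem (sub_mem (AddSubgroup.mem_sup_left (st_add huv)) ?_) ?_
    · exact AddSubgroup.mem_sup_right (lt_left (Subgroup.mem_map_of_mem φ hu) _)
    · exact AddSubgroup.mem_sup_right (lt_right (Subgroup.mem_map_of_mem φ hv) _)
  · exact AddSubgroup.mem_sup_right (lt_left (Subgroup.mem_map_of_mem φ (hu' j hj)) _)

/-- refinement of a family -/
theorem KF.refine (h : KF p φ T) {J : I → Type} (S : ∀ i, J i → Subgroup Fˣ)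
    (h1 : ∀ i j, ∀ c : Fˣ, c ^ p ∈ S i j)
    (h2 : ∀ i, ∀ u : J i → Fˣ, ∃ y : Fˣ, ∀ j, y / u j ∈ S i j)
    (h3 : ∀ i, ∀ t : Fˣ, (∀ j, t ∈ S i j) ↔ t ∈ T i)
    (h4 : ∀ i, ∀ x, (∀ j, x ∈ St φ ⊔ Lt ((S i j).map φ)) → x ∈ St φ ⊔ Lt ((T i).map φ)) :
    KF p φ (fun k : Σ i, J i => S k.1 k.2) where
  pow k c := h1 k.1 k.2 c
  onto := by
    intro u
    choose y hy using fun i => h2 i fun j => u ⟨i, j⟩
    obtain ⟨z, hz⟩ := h.onto y
    refine ⟨z, ?_⟩
    rintro ⟨i, j⟩
    have h5 := mul_mem ((h3 i _).2 (hz i) j) (hy i j)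
    rwa [div_mul_div_cancel] at h5
  rad t := by
    rw [← h.rad]
    constructor
    · exact fun ht i => (h3 i t).1 fun j => ht ⟨i, j⟩
    · exact fun ht k => (h3 k.1 t).2 (ht k.1) k.2
  glue x hx := h.glue x fun i => h4 i x fun j => hx ⟨i, j⟩

end

/-! ### the sign symbol -/

open Classical in
/-- the sign of an ordering -/
noncomputable def sg (L : Subgroup A) (_h1 : φ (-1) ∉ L) (h2 : ∀ a : A, a ∈ L ∨ φ (-1) * a ∈ L) :
    Additive A →+ ZMod 2 where
  toFun a := if Additive.toMul a ∈ L then 0 else 1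
  map_zero' := by
    rw [toMul_zero, if_pos (one_mem L)]
  map_add' a b := by
    rw [toMul_add]
    by_cases ha : Additive.toMul a ∈ L <;> by_cases hb : Additive.toMul b ∈ L
    · rw [if_pos (mul_mem ha hb), if_pos ha, if_pos hb, add_zero]
    · rw [if_neg (fun h => hb ((Subgroup.mul_mem_cancel_left L ha).1 h)), if_pos ha, if_neg hb,
        zero_add]
    · rw [if_neg (fun h => ha ((Subgroup.mul_mem_cancel_right L hb).1 h)), if_neg ha, if_pos hb,
        add_zero]
    · have h3 := mul_mem ((h2 (Additive.toMul a)).resolve_left ha)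
        ((h2 (Additive.toMul b)).resolve_left hb)
      have h4 : φ (-1) * Additive.toMul a * (φ (-1) * Additive.toMul b) =
          Additive.toMul a * Additive.toMul b := by
        rw [mul_mul_mul_comm, phi_neg_neg, one_mul]
      rw [h4] at h3
      rw [if_pos h3, if_neg ha, if_neg hb]
      decide

open Classical in
/-- the symbol of an ordering -/
noncomputable def sgs (L : Subgroup A) (h1 : φ (-1) ∉ L) (h2 : ∀ a : A, a ∈ L ∨ φ (-1) * a ∈ L) :
    Additive A ⊗[ℤ] Additive A →+ ZMod 2 :=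
  TensorProduct.liftAddHom (AddMonoidHom.mk' (fun a => AddMonoidHom.mk'
    (fun b => sg L h1 h2 a * sg L h1 h2 b) (fun b c => by rw [map_add, mul_add]))
      (fun a b => by
        ext c
        change sg L h1 h2 (a + b) * sg L h1 h2 c =
          sg L h1 h2 a * sg L h1 h2 c + sg L h1 h2 b * sg L h1 h2 c
        rw [map_add, add_mul])) (fun r a b => by
        change sg L h1 h2 (r • a) * sg L h1 h2 b = sg L h1 h2 a * sg L h1 h2 (r • b)
        rw [map_zsmul, map_zsmul, smul_mul_assoc, mul_smul_comm])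

lemma sgs_tmul (L : Subgroup A) (h1 : φ (-1) ∉ L) (h2 : ∀ a : A, a ∈ L ∨ φ (-1) * a ∈ L)
    (a b : Additive A) : sgs L h1 h2 (a ⊗ₜ[ℤ] b) = sg L h1 h2 a * sg L h1 h2 b := rfl

lemma sg_of_mem {L : Subgroup A} {h1 : φ (-1) ∉ L} {h2 : ∀ a : A, a ∈ L ∨ φ (-1) * a ∈ L}
    {a : A} (ha : a ∈ L) : sg L h1 h2 (Additive.ofMul a) = 0 := if_pos ha

lemma sg_of_not {L : Subgroup A} {h1 : φ (-1) ∉ L} {h2 : ∀ a : A, a ∈ L ∨ φ (-1) * a ∈ L}
    {a : A} (ha : a ∉ L) : sg L h1 h2 (Additive.ofMul a) = 1 := if_neg ha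

/-- the symbol of an ordering kills the relations -/
lemma sgs_zero {L : Subgroup A} {h1 : φ (-1) ∉ L} {h2 : ∀ a : A, a ∈ L ∨ φ (-1) * a ∈ L}
    (h3 : ∀ u v : Fˣ, (u : F) + v = 1 → φ u ∈ L ∨ φ v ∈ L) {x : Additive A ⊗[ℤ] Additive A}
    (hx : x ∈ St φ ⊔ Lt L) : sgs L h1 h2 x = 0 := by
  have h4 : St φ ⊔ Lt L ≤ (sgs L h1 h2).ker := by
    rw [sup_le_iff]
    constructor
    · unfold St
      rw [AddSubgroup.closure_le]
      rintro _ ⟨u, v, huv, rfl⟩
      change sgs L h1 h2 _ = 0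
      rw [sgs_tmul]
      rcases h3 u v huv with h | h
      · rw [sg_of_mem h, zero_mul]
      · rw [sg_of_mem h, mul_zero]
    · unfold Lt
      rw [AddSubgroup.closure_le]
      rintro _ ⟨l, hl, a, rfl | rfl⟩
      · change sgs L h1 h2 _ = 0
        rw [sgs_tmul, sg_of_mem hl, zero_mul]
      · change sgs L h1 h2 _ = 0
        rw [sgs_tmul, sg_of_mem hl, mul_zero]
  exact h4 hx

/-- `x + y = 1` implies `x > 0` or `y > 0` -/
lemma ordg_sum {P : Subgroup Fˣ} (hP : Ordg P) {u v : Fˣ} (huv : (u : F) + v = 1) :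
    u ∈ P ∨ v ∈ P := by
  by_contra hcon
  push Not at hcon
  have h1 := (hP.tot u).resolve_left hcon.1
  obtain ⟨z, hz, hz1⟩ := hP.add _ h1
  apply hcon.2
  have : z = v := by
    ext
    rw [hz, Units.val_neg]
    linear_combination (-1) * huv
  rwa [← this]

/-! ### the exceptional pieces -/

/-- the second ordering -/
def sec (T : Subgroup Fˣ) (g : Fˣ) (hT : ∀ c : Fˣ, c ^ 2 ∈ T) : Subgroup Fˣ where
  carrier := {x | x ∈ T ∨ -(x * g) ∈ T}
  mul_mem' := by
    rintro x y (hx | hx) (hy | hy)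
    · exact Or.inl (mul_mem hx hy)
    · right
      have h1 := mul_mem hx hy
      have h2 : x * -(y * g) = -(x * y * g) := by rw [mul_neg, mul_assoc]
      rwa [h2] at h1
    · right
      have h1 := mul_mem hx hy
      have h2 : -(x * g) * y = -(x * y * g) := by rw [neg_mul, mul_right_comm]
      rwa [h2] at h1
    · left
      have h1 := div_mem (mul_mem hx hy) (hT g)
      have h2 : -(x * g) * -(y * g) / g ^ 2 = x * y := by
        rw [neg_mul_neg, mul_mul_mul_comm, ← pow_two g, mul_div_cancel_right]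
      rwa [h2] at h1
  one_mem' := Or.inl (one_mem T)
  inv_mem' := by
    rintro x (hx | hx)
    · exact Or.inl (inv_mem hx)
    · right
      have h1 := mul_mem (inv_mem hx) (hT g)
      have h2 : (-(x * g))⁻¹ * g ^ 2 = -(x⁻¹ * g) := by
        rw [inv_neg, mul_inv, neg_mul, mul_assoc, pow_two, inv_mul_cancel_left]
      rwa [h2] at h1

lemma mem_sec {T : Subgroup Fˣ} {g : Fˣ} {hT : ∀ c : Fˣ, c ^ 2 ∈ T} {x : Fˣ} :
    x ∈ sec T g hT ↔ x ∈ T ∨ -(x * g) ∈ T := Iff.rfl

section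

variable {T P : Subgroup Fˣ} {g : Fˣ} (hT : ∀ c : Fˣ, c ^ 2 ∈ T) (hP : Ordg P) (hle : T ≤ P)
  (hgP : g ∈ P) (hgT : g ∉ T) (hPT : ∀ x ∈ P, x ∈ T ∨ x * g ∈ T)

include hgP hle hP in
lemma inf_sec {x : Fˣ} : x ∈ T ↔ x ∈ P ∧ x ∈ sec T g hT := by
  constructor
  · exact fun h => ⟨hle h, Or.inl h⟩
  · rintro ⟨h1, h2 | h2⟩
    · exact h2
    · exfalso
      have h3 := div_mem (hle h2) (mul_mem h1 hgP)
      rw [neg_div, div_self'] at h3
      exact hP.neg h3

include hP hle hgT hPT in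
/-- the second ordering is an ordering -/
lemma ordg_sec {O : ValuationSubring F} (hTm : Tm 2 T O) : Ordg (sec T g hT) := by
  have hv : ∀ t ∈ T, ∃ f : Fˣ, O.valuation (t : F) = O.valuation (f : F) ^ 2 := by
    intro t ht
    obtain ⟨f, x, hx, e⟩ := (hTm.mem t).1 ht
    exact ⟨f, by rw [e, map_mul, map_pow, Pool.Agent.Helper58.EU.val_one_add O hx, mul_one]⟩
  have hone : ∀ x : F, O.valuation x < 1 → ∀ z : Fˣ, (z : F) = 1 + x → z ∈ T := by
    intro x hx z hz
    exact (hTm.mem z).2 ⟨1, x, hx, by rw [hz, Units.val_one, one_pow, one_mul]⟩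
  -- the value of `g`
  have hg : ∀ f : Fˣ, O.valuation (g : F) ≠ O.valuation (f : F) ^ 2 := by
    intro f hf
    obtain ⟨c, hc⟩ := hTm.nu
    have h1 : ∀ f' : Fˣ, O.valuation (c : F) ≠ O.valuation (f' : F) ^ 2 := by
      intro f' hf'
      apply hc f'⁻¹
      rw [Units.val_mul, map_mul, hf', Units.val_pow_eq_pow_val, map_pow,
        Units.val_inv_eq_inv_val, map_inv₀, ← mul_pow,
        mul_inv_cancel₀ (Pool.Agent.Helper58.EB.val_ne O f'), one_pow]
    have h2 : ∀ c' : Fˣ, O.valuation (c' : F) = O.valuation (c : F) → c' ∉ P := by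
      intro c' hc' hcP
      rcases hPT c' hcP with h | h
      · obtain ⟨f', hf'⟩ := hv _ h
        exact h1 f' (hc'.symm.trans hf')
      · obtain ⟨f', hf'⟩ := hv _ h
        rw [Units.val_mul, map_mul, hf, hc'] at hf'
        apply h1 (f' / f)
        rw [Units.val_div_eq_div_val, map_div₀, div_pow, ← hf', mul_div_cancel_right₀]
        exact pow_ne_zero _ (Pool.Agent.Helper58.EB.val_ne O f)
    rcases hP.tot c with h | h
    · exact h2 c rfl h
    · exact h2 (-c) (by rw [Units.val_neg, Valuation.map_neg]) h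
  refine ⟨?_, ?_, ?_⟩
  · rintro (h | h)
    · exact hP.neg (hle h)
    · rw [neg_one_mul, neg_neg] at h
      exact hgT h
  · intro u
    rcases hP.tot u with h | h
    · rcases hPT u h with h1 | h1
      · exact Or.inl (Or.inl h1)
      · right
        right
        rwa [neg_mul, neg_neg]
    · rcases hPT _ h with h1 | h1
      · exact Or.inr (Or.inl h1)
      · left
        right
        rwa [neg_mul] at h1
  · intro u hu
    rcases lt_trichotomy (O.valuation (u : F)) 1 with h1 | h1 | h1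
    · obtain ⟨z, hz, -⟩ := exists_unit_one_add O h1
      exact ⟨z, hz, Or.inl (hone _ h1 z hz)⟩
    · rcases hu with hu | hu
      · obtain ⟨z, hz, hzP⟩ := hP.add u (hle hu)
        refine ⟨z, hz, ?_⟩
        rcases hPT z hzP with h2 | h2
        · exact Or.inl h2
        · exfalso
          obtain ⟨f, hf⟩ := hv _ h2
          rw [Units.val_mul, map_mul] at hf
          have h3 : O.valuation (z : F) < 1 := by
            refine lt_of_le_of_ne ?_ ?_
            · rw [hz]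
              refine (Valuation.map_add _ _ _).trans (max_le ?_ h1.le)
              rw [map_one]
            · intro e
              rw [e, one_mul] at hf
              exact hg f hf
          have h4 := hone (-(z : F)) (by rwa [Valuation.map_neg]) (-u) (by
            rw [Units.val_neg, hz]
            ring)
          have h5 := div_mem h4 hu
          rw [neg_div, div_self'] at h5
          exact hP.neg (hle h5)
      · exfalso
        obtain ⟨f, hf⟩ := hv _ hu
        rw [Units.val_neg, Valuation.map_neg, Units.val_mul, map_mul, h1, one_mul] at hf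
        exact hg f hf
    · have h2 : O.valuation ((u : F)⁻¹) < 1 := by
        rw [map_inv₀]
        exact inv_lt_one_of_one_lt₀ h1
      obtain ⟨z, hz, -⟩ := exists_unit_one_add O h2
      have h3 := hone _ h2 z hz
      refine ⟨u * z, ?_, mul_mem hu (Or.inl h3)⟩
      have hu0 : (u : F) ≠ 0 := u.ne_zero
      rw [Units.val_mul, hz]
      field_simp
      ring

include hgP in
lemma onto_sec (hQ : Ordg (sec T g hT)) (u v : Fˣ) :
    ∃ y : Fˣ, y / u ∈ P ∧ y / v ∈ sec T g hT := by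
  rcases hQ.tot (u / v) with h | h
  · exact ⟨u, by rw [div_self']; exact one_mem P, h⟩
  · refine ⟨g * u, by rwa [mul_div_cancel_right], ?_⟩
    have h1 : -g ∈ sec T g hT := by
      right
      rw [neg_mul, neg_neg, ← pow_two]
      exact hT g
    have h2 := mul_mem h1 h
    rwa [neg_mul_neg, ← mul_div_assoc] at h2

include hP hPT in
lemma gen_top {Y : Subgroup Fˣ} (h1 : T ≤ Y) (h2 : -1 ∈ Y) (h3 : g ∈ Y) (u : Fˣ) : u ∈ Y := by
  have h4 : ∀ x ∈ P, x ∈ Y := by
    intro x hx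
    rcases hPT x hx with h | h
    · exact h1 h
    · exact (Subgroup.mul_mem_cancel_right Y h3).1 (h1 h)
  rcases hP.tot u with h | h
  · exact h4 u h
  · have h5 := mul_mem h2 (h4 _ h)
    rwa [neg_mul_neg, one_mul] at h5

lemma map_facts {P : Subgroup Fˣ} (hP : Ordg P) (hφ : Function.Surjective φ)
    (hker : ∀ u : Fˣ, φ u = 1 → u ∈ P) :
    φ (-1) ∉ P.map φ ∧ (∀ a : A, a ∈ P.map φ ∨ φ (-1) * a ∈ P.map φ) ∧
      ∀ u v : Fˣ, (u : F) + v = 1 → φ u ∈ P.map φ ∨ φ v ∈ P.map φ := by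
  refine ⟨?_, ?_, ?_⟩
  · rintro ⟨q, hq, e⟩
    apply hP.neg
    have h1 := hker (-1 / q) (by rw [MonoidHom.map_div, e, div_self'])
    have h2 := mul_mem h1 hq
    rwa [div_mul_cancel] at h2
  · intro a
    obtain ⟨u, rfl⟩ := hφ a
    rcases hP.tot u with h | h
    · exact Or.inl (Subgroup.mem_map_of_mem φ h)
    · right
      rw [← phi_neg' φ u]
      exact Subgroup.mem_map_of_mem φ h
  · intro u v huv
    rcases ordg_sum hP huv with h | h
    · exact Or.inl (Subgroup.mem_map_of_mem φ h)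
    · exact Or.inr (Subgroup.mem_map_of_mem φ h)

/-- the elements whose symbols with everything lie in `X` -/
def sbr (φ : Fˣ →* A) (X : AddSubgroup (Additive A ⊗[ℤ] Additive A)) (a : A) : Subgroup Fˣ where
  carrier := {v | Additive.ofMul a ⊗ₜ[ℤ] Additive.ofMul (φ v) ∈ X}
  mul_mem' := by
    intro x y hx hy
    change Additive.ofMul a ⊗ₜ[ℤ] Additive.ofMul (φ (x * y)) ∈ X
    rw [map_mul, ofMul_mul, TensorProduct.tmul_add]
    exact add_mem hx hy
  one_mem' := by
    change Additive.ofMul a ⊗ₜ[ℤ] Additive.ofMul (φ 1) ∈ X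
    rw [map_one, ofMul_one, TensorProduct.tmul_zero]
    exact zero_mem _
  inv_mem' := by
    intro x hx
    change Additive.ofMul a ⊗ₜ[ℤ] Additive.ofMul (φ x⁻¹) ∈ X
    rw [map_inv, ofMul_inv, TensorProduct.tmul_neg]
    exact neg_mem hx

lemma mem_sbr {X : AddSubgroup (Additive A ⊗[ℤ] Additive A)} {a : A} {v : Fˣ} :
    v ∈ sbr φ X a ↔ Additive.ofMul a ⊗ₜ[ℤ] Additive.ofMul (φ v) ∈ X := Iff.rfl

/-- the elements whose symbols with everything lie in `X` -/
def sbl (φ : Fˣ →* A) (X : AddSubgroup (Additive A ⊗[ℤ] Additive A)) : Subgroup Fˣ where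
  carrier := {u | ∀ v : Fˣ, Additive.ofMul (φ u) ⊗ₜ[ℤ] Additive.ofMul (φ v) ∈ X}
  mul_mem' := by
    intro x y hx hy v
    rw [map_mul, ofMul_mul, TensorProduct.add_tmul]
    exact add_mem (hx v) (hy v)
  one_mem' := by
    intro v
    rw [map_one, ofMul_one, TensorProduct.zero_tmul]
    exact zero_mem _
  inv_mem' := by
    intro x hx v
    rw [map_inv, ofMul_inv, TensorProduct.neg_tmul]
    exact neg_mem (hx v)

lemma mem_sbl {X : AddSubgroup (Additive A ⊗[ℤ] Additive A)} {u : Fˣ} :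
    u ∈ sbl φ X ↔ ∀ v : Fˣ, Additive.ofMul (φ u) ⊗ₜ[ℤ] Additive.ofMul (φ v) ∈ X := Iff.rfl

include hP hle hgP hgT hPT in
/-- gluing at an exceptional piece -/
lemma glue_sec (hφ : Function.Surjective φ) (hker : ∀ u : Fˣ, φ u = 1 → u ∈ T)
    (hQ : Ordg (sec T g hT)) {x : Additive A ⊗[ℤ] Additive A}
    (hx1 : x ∈ St φ ⊔ Lt (P.map φ)) (hx2 : x ∈ St φ ⊔ Lt ((sec T g hT).map φ)) :
    x ∈ St φ ⊔ Lt (T.map φ) := by
  obtain ⟨a1, a2, a3⟩ := map_facts hP hφ fun u hu => hle (hker u hu)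
  obtain ⟨b1, b2, b3⟩ := map_facts hQ hφ fun u hu => Or.inl (hker u hu)
  obtain ⟨e1, he1⟩ : ∃ e1 : Additive A ⊗[ℤ] Additive A,
    e1 = Additive.ofMul (φ (-1)) ⊗ₜ[ℤ] Additive.ofMul (φ (-1)) := ⟨_, rfl⟩
  obtain ⟨e2, he2⟩ : ∃ e2 : Additive A ⊗[ℤ] Additive A,
    e2 = Additive.ofMul (φ (-1)) ⊗ₜ[ℤ] Additive.ofMul (φ g) := ⟨_, rfl⟩
  obtain ⟨X, hX⟩ : ∃ X : AddSubgroup (Additive A ⊗[ℤ] Additive A),
    X = (St φ ⊔ Lt (T.map φ)) ⊔ (AddSubgroup.zmultiples e1 ⊔ AddSubgroup.zmultiples e2) :=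
      ⟨_, rfl⟩
  have hStX : ∀ y ∈ St φ, y ∈ X := fun y hy => by
    rw [hX]; exact AddSubgroup.mem_sup_left (AddSubgroup.mem_sup_left hy)
  have hLtX : ∀ y ∈ Lt (T.map φ), y ∈ X := fun y hy => by
    rw [hX]; exact AddSubgroup.mem_sup_left (AddSubgroup.mem_sup_right hy)
  have he1X : e1 ∈ X := by
    rw [hX]
    exact AddSubgroup.mem_sup_right (AddSubgroup.mem_sup_left (AddSubgroup.mem_zmultiples _))
  have he2X : e2 ∈ X := by
    rw [hX]
    exact AddSubgroup.mem_sup_right (AddSubgroup.mem_sup_right (AddSubgroup.mem_zmultiples _))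
  have hge : Additive.ofMul (φ g) ⊗ₜ[ℤ] Additive.ofMul (φ (-1)) ∈ X := by
    have h1 := sub_mem (hStX _ (st_symm' hφ (φ (-1)) (φ g))) (he2 ▸ he2X)
    rwa [add_sub_cancel_left] at h1
  have hgg : Additive.ofMul (φ g) ⊗ₜ[ℤ] Additive.ofMul (φ g) ∈ X := by
    have h1 := hStX _ (st_neg (φ := φ) g)
    rw [phi_neg' φ g, ofMul_mul, TensorProduct.tmul_add] at h1
    have h2 := sub_mem h1 hge
    rwa [add_sub_cancel_left] at h2
  have hall : ∀ u v : Fˣ, Additive.ofMul (φ u) ⊗ₜ[ℤ] Additive.ofMul (φ v) ∈ X := by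
    intro u
    have h1 : u ∈ sbl φ X := by
      refine gen_top hP hPT ?_ ?_ ?_ u
      · intro t ht v
        exact hLtX _ (lt_left (Subgroup.mem_map_of_mem φ ht) _)
      · intro v
        have h2 : v ∈ sbr φ X (φ (-1)) := by
          refine gen_top hP hPT ?_ ?_ ?_ v
          · intro t ht
            exact hLtX _ (lt_right (Subgroup.mem_map_of_mem φ ht) _)
          · exact mem_sbr.2 (he1 ▸ he1X)
          · exact mem_sbr.2 (he2 ▸ he2X)
        exact h2
      · intro v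
        have h2 : v ∈ sbr φ X (φ g) := by
          refine gen_top hP hPT ?_ ?_ ?_ v
          · intro t ht
            exact hLtX _ (lt_right (Subgroup.mem_map_of_mem φ ht) _)
          · exact hge
          · exact hgg
        exact h2
    exact h1
  have hyX : ∀ y : Additive A ⊗[ℤ] Additive A, y ∈ X := by
    intro y
    induction y using TensorProduct.induction_on with
    | zero => exact zero_mem _
    | tmul a b =>
      obtain ⟨u, hu⟩ := hφ (Additive.toMul a)
      obtain ⟨v, hv⟩ := hφ (Additive.toMul b)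
      have h1 := hall u v
      rw [hu, hv] at h1
      exact h1
    | add a b ha hb => exact add_mem ha hb
  have hxX := hyX x
  rw [hX, AddSubgroup.mem_sup] at hxX
  obtain ⟨n, hn, y, hy, rfl⟩ := hxX
  rw [AddSubgroup.mem_sup] at hy
  obtain ⟨y1, hy1, y2, hy2, rfl⟩ := hy
  obtain ⟨α, rfl⟩ := AddSubgroup.mem_zmultiples_iff.1 hy1
  obtain ⟨β, rfl⟩ := AddSubgroup.mem_zmultiples_iff.1 hy2
  have hTP : St φ ⊔ Lt (T.map φ) ≤ St φ ⊔ Lt (P.map φ) :=
    sup_le_sup le_rfl (lt_mono (Subgroup.map_mono hle))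
  have hTQ : St φ ⊔ Lt (T.map φ) ≤ St φ ⊔ Lt ((sec T g hT).map φ) :=
    sup_le_sup le_rfl (lt_mono (Subgroup.map_mono fun _ h => Or.inl h))
  have hgQ : φ g ∉ (sec T g hT).map φ := by
    rintro ⟨q, hq, e⟩
    have h1 := hker (g / q) (by rw [MonoidHom.map_div, e, div_self'])
    have h2 : g ∈ sec T g hT := by
      have h3 := mul_mem (Or.inl h1 : g / q ∈ sec T g hT) hq
      rwa [div_mul_cancel] at h3
    rcases h2 with h2 | h2
    · exact hgT h2
    · apply hP.neg
      have h3 := hle (div_mem h2 (hT g))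
      rwa [neg_div, ← pow_two, div_self'] at h3
  have h1 := sgs_zero (h1 := a1) (h2 := a2) a3 hx1
  have h2 := sgs_zero (h1 := a1) (h2 := a2) a3 (hTP hn)
  have h3 := sgs_zero (h1 := b1) (h2 := b2) b3 hx2
  have h4 := sgs_zero (h1 := b1) (h2 := b2) b3 (hTQ hn)
  rw [map_add, h2, zero_add, map_add, map_zsmul, map_zsmul, he1, he2, sgs_tmul, sgs_tmul,
    sg_of_not a1, sg_of_mem (Subgroup.mem_map_of_mem φ hgP), mul_one, mul_zero, smul_zero,
    add_zero, zsmul_one] at h1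
  rw [map_add, h4, zero_add, map_add, map_zsmul, map_zsmul, he1, he2, sgs_tmul, sgs_tmul,
    sg_of_not b1, sg_of_not hgQ, mul_one, zsmul_one, zsmul_one, h1, zero_add] at h3
  rw [ZMod.intCast_zmod_eq_zero_iff_dvd] at h1 h3
  have h5 : ∀ b : A, (2 : ℤ) • (Additive.ofMul (φ (-1)) ⊗ₜ[ℤ] Additive.ofMul b) = 0 := by
    intro b
    rw [two_smul, ← TensorProduct.add_tmul, ← ofMul_mul, phi_neg_neg, ofMul_one,
      TensorProduct.zero_tmul]
  obtain ⟨α, rfl⟩ := h1
  obtain ⟨β, rfl⟩ := h3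
  have h6 : ((2 : ℕ) : ℤ) = 2 := rfl
  rw [h6, mul_comm 2 α, mul_comm 2 β, mul_smul, mul_smul, he1, he2, h5, h5, smul_zero, smul_zero,
    add_zero, add_zero]
  exact hn

end

end

end Pool.Agent.Helper39.FAM
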