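import Mathlib
import Pool.Agent.Helper39.FAM.Fam
import Pool.Agent.Helper95.EC.K2M
import Pool.Agent.Helper59.EA.Max
import Pool.Agent.ETC.All

set_option autoImplicit false

/-! # The family of the places -/

namespace Pool.Agent.Helper39.FAM

open Pool.Agent.Helper58.EB Pool.Agent.Helper58.ET Pool.Agent.Helper58.EU
open Pool.Agent.ETC (TR V1 V2 NX Pl PlN Nm Orth Cpt Glue Piece Sm mem_TR sm_of_pv)
open scoped TensorProduct

section

variable {F : Type} [Field F] {A : Type} [CommGroup A] {p : ℕ} {φ : Fˣ →* A}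

/-- relations modulo `T` -/
theorem st_descend {B : Type} [CommGroup B] {ψ : Fˣ →* B} (hψ : Function.Surjective ψ)
    {T : Subgroup Fˣ} (hT : ∀ u : Fˣ, ψ u = 1 → u ∈ T) {a b : Fˣ}
    (h : Additive.ofMul (ψ a) ⊗ₜ[ℤ] Additive.ofMul (ψ b) ∈ St ψ) :
    Additive.ofMul (φ a) ⊗ₜ[ℤ] Additive.ofMul (φ b) ∈ St φ ⊔ Lt (T.map φ) := by
  let Q := (Additive A ⊗[ℤ] Additive A) ⧸ (St φ ⊔ Lt (T.map φ))
  let q : (Additive A ⊗[ℤ] Additive A) →+ Q := QuotientAddGroup.mk' (St φ ⊔ Lt (T.map φ))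
  have hq0 : ∀ x, q x = 0 ↔ x ∈ St φ ⊔ Lt (T.map φ) := fun x => by
    exact QuotientAddGroup.eq_zero_iff x
  have hb : ∀ a b b' : Fˣ, ψ b = ψ b' →
      q (Additive.ofMul (φ a) ⊗ₜ[ℤ] Additive.ofMul (φ b)) =
        q (Additive.ofMul (φ a) ⊗ₜ[ℤ] Additive.ofMul (φ b')) := by
    intro a b b' h
    rw [← sub_eq_zero, ← map_sub, hq0, ← TensorProduct.tmul_sub, ← ofMul_div, ← MonoidHom.map_div]
    apply AddSubgroup.mem_sup_right
    apply lt_right
    apply Subgroup.mem_map_of_mem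
    apply hT
    rw [MonoidHom.map_div, h, div_self']
  have ha : ∀ a a' b : Fˣ, ψ a = ψ a' →
      q (Additive.ofMul (φ a) ⊗ₜ[ℤ] Additive.ofMul (φ b)) =
        q (Additive.ofMul (φ a') ⊗ₜ[ℤ] Additive.ofMul (φ b)) := by
    intro a a' b h
    rw [← sub_eq_zero, ← map_sub, hq0, ← TensorProduct.sub_tmul, ← ofMul_div, ← MonoidHom.map_div]
    apply AddSubgroup.mem_sup_right
    apply lt_left
    apply Subgroup.mem_map_of_mem
    apply hT
    rw [MonoidHom.map_div, h, div_self']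
  choose s hs using hψ
  let g : Additive B →+ Additive B →+ Q :=
    AddMonoidHom.mk' (fun a => AddMonoidHom.mk' (fun b =>
      q (Additive.ofMul (φ (s (Additive.toMul a))) ⊗ₜ[ℤ]
        Additive.ofMul (φ (s (Additive.toMul b))))) (by
          intro b b'
          rw [← map_add, ← TensorProduct.tmul_add, ← ofMul_mul, ← map_mul]
          apply hb
          rw [map_mul, hs, hs, hs]
          rfl)) (by
          intro a a'
          ext b
          change q _ = q _ + q _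
          rw [← map_add, ← TensorProduct.add_tmul, ← ofMul_mul, ← map_mul]
          apply ha
          rw [map_mul, hs, hs, hs]
          rfl)
  let G : Additive B ⊗[ℤ] Additive B →+ Q :=
    TensorProduct.liftAddHom g (by
      intro r a b
      rw [map_zsmul, map_zsmul, AddMonoidHom.smul_apply])
  have hG : ∀ a b : Fˣ, G (Additive.ofMul (ψ a) ⊗ₜ[ℤ] Additive.ofMul (ψ b)) =
      q (Additive.ofMul (φ a) ⊗ₜ[ℤ] Additive.ofMul (φ b)) := by
    intro a b
    have h1 : G (Additive.ofMul (ψ a) ⊗ₜ[ℤ] Additive.ofMul (ψ b)) =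
      q (Additive.ofMul (φ (s (ψ a))) ⊗ₜ[ℤ] Additive.ofMul (φ (s (ψ b)))) := rfl
    rw [h1, ha _ a _ (hs _), hb _ _ b (hs _)]
  have h3 : St ψ ≤ G.ker := by
    unfold St
    rw [AddSubgroup.closure_le]
    rintro _ ⟨u, v, huv, rfl⟩
    exact (hG u v).trans ((hq0 _).2 (AddSubgroup.mem_sup_left (st_add huv)))
  rw [← hq0, ← hG]
  exact h3 h

/-- elements of a tame group have values in `p Γ` -/
lemma val_of_tm {T : Subgroup Fˣ} {O : ValuationSubring F} (h : Tm p T O) {t : Fˣ} (ht : t ∈ T) :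
    ∃ f : Fˣ, O.valuation (t : F) = O.valuation (f : F) ^ p := by
  obtain ⟨f, x, hx, e⟩ := (h.mem t).1 ht
  exact ⟨f, by rw [e, map_mul, map_pow, Pool.Agent.Helper58.EB.val_one_add O hx, mul_one]⟩

lemma not_val_of_tm {T : Subgroup Fˣ} {O : ValuationSubring F} (h : Tm p T O) :
    ∃ c : Fˣ, ∀ f : Fˣ, O.valuation (c : F) ≠ O.valuation (f : F) ^ p := by
  obtain ⟨c, hc⟩ := h.nu
  refine ⟨c, fun f hf => hc f⁻¹ ?_⟩
  rw [Units.val_mul, map_mul, hf, Units.val_pow_eq_pow_val, map_pow, Units.val_inv_eq_inv_val,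
    map_inv₀, ← mul_pow, mul_inv_cancel₀ (Pool.Agent.Helper58.EB.val_ne O f), one_pow]

/-- tame pieces are not cyclic -/
lemma nc_of_tm (hp : p.Prime) (hφ : Function.Surjective φ) {I : Type} {T : I → Subgroup Fˣ}
    (h : KF p φ T) (i : I) {O : ValuationSubring F} (hT : Tm p (T i) O) (g : Fˣ) :
    ∃ x : Fˣ, ∀ n : ℕ, x / g ^ n ∉ T i := by
  by_contra hcon
  push Not at hcon
  obtain ⟨c, hc⟩ := not_val_of_tm hT
  -- `-1` is a local `p`-th power
  have hneg : -1 ∈ T i := by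
    rcases hp.eq_two_or_odd' with h2 | h2
    · subst h2
      obtain ⟨m, hm⟩ := hcon (-1)
      rcases Nat.even_or_odd m with hm2 | hm2
      · obtain ⟨k, rfl⟩ := hm2
        have h3 := mul_mem hm (h.pow i (g ^ k))
        rwa [← pow_mul, mul_two, div_mul_cancel] at h3
      · exfalso
        -- the value of `g` is even
        have hg : ∃ f : Fˣ, O.valuation (g : F) = O.valuation (f : F) ^ 2 := by
          obtain ⟨k, rfl⟩ := hm2
          obtain ⟨f, hf⟩ := val_of_tm hT hm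
          refine ⟨(f * g ^ k)⁻¹, ?_⟩
          have hg0 := Pool.Agent.Helper58.EB.val_ne O g
          rw [Units.val_div_eq_div_val, map_div₀, Units.val_neg, Units.val_one,
            Valuation.map_neg, map_one, Units.val_pow_eq_pow_val, map_pow] at hf
          rw [Units.val_inv_eq_inv_val, map_inv₀, Units.val_mul, map_mul,
            Units.val_pow_eq_pow_val, map_pow, inv_pow, mul_pow, ← hf]
          field_simp
          rw [← pow_mul, mul_comm k 2, ← pow_succ']
        obtain ⟨f, hf⟩ := hg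
        obtain ⟨n, hn⟩ := hcon c
        obtain ⟨f', hf'⟩ := val_of_tm hT hn
        apply hc (f' * f ^ n)
        rw [Units.val_div_eq_div_val, map_div₀, Units.val_pow_eq_pow_val, map_pow, hf,
          div_eq_iff (pow_ne_zero _ (pow_ne_zero _ (Pool.Agent.Helper58.EB.val_ne O f)))] at hf'
        rw [hf', Units.val_mul, map_mul, Units.val_pow_eq_pow_val, map_pow, mul_pow, ← pow_mul,
          ← pow_mul, mul_comm 2 n]
    · have h3 := h.pow i (-1)
      rwa [h2.neg_one_pow] at h3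
  obtain ⟨g', hg1, hg2⟩ := h.loc i g
  have hrad : φ g' ∈ Rad φ := by
    intro b
    obtain ⟨b, rfl⟩ := hφ b
    have h1 : Additive.ofMul (φ g') ⊗ₜ[ℤ] Additive.ofMul (φ g') ∈ St φ := by
      have h2 := st_neg (φ := φ) g'
      rw [phi_neg' φ g', ofMul_mul, TensorProduct.tmul_add] at h2
      have h3 := sub_mem h2 (h.orth i hg2 hneg).2
      rwa [add_sub_cancel_left] at h3
    obtain ⟨n, hn⟩ := hcon b
    have h4 : b / g' ^ n ∈ T i := by
      have h5 := div_mem hn (pow_mem hg1 n)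
      rwa [div_pow, div_div_div_cancel_right] at h5
    have h6 : b = g' ^ n * (b / g' ^ n) := by rw [mul_div_cancel]
    rw [h6, map_mul, map_pow, ofMul_mul, ofMul_pow, TensorProduct.tmul_add,
      TensorProduct.tmul_smul]
    exact add_mem (nsmul_mem h1 n) (h.orth i hg2 h4).2
  have h7 := (h.rad g').2 hrad i
  have h8 : g ∈ T i := by
    have h9 := div_mem h7 hg1
    rwa [div_div_cancel] at h9
  obtain ⟨n, hn⟩ := hcon c
  have h10 := mul_mem hn (pow_mem h8 n)
  rw [div_mul_cancel] at h10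
  obtain ⟨f, hf⟩ := val_of_tm hT h10
  exact hc f hf

/-- no ordering contains a `2`-adic piece -/
lemma not_ordg_of_v2 {ζ : F} (hζ : IsPrimitiveRoot ζ 2) {R : ValuationSubring F} (hR : V2 2 R)
    {P : Subgroup Fˣ} (hP : Ordg P) : ¬ TR 2 ζ R ≤ P := by
  intro hle
  have hz : ζ = -1 := hζ.eq_neg_one_of_two_right
  have h2 : R.valuation ((2 : ℕ) : F) < 1 := hR.pv
  obtain ⟨π, hπ1, -, ⟨e, he⟩, -⟩ := hR.unif
  have h20 : R.valuation ((2 : ℕ) : F) ≠ 0 := by
    intro e0
    rw [e0] at he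
    have := zero_lt_iff.2 (pow_ne_zero e (Pool.Agent.Helper58.EB.val_ne R π))
    exact absurd he (not_le.2 this)
  obtain ⟨z2, hz2, hz2P⟩ := hP.add 1 (one_mem P)
  obtain ⟨z3, hz3, hz3P⟩ := hP.add z2 hz2P
  obtain ⟨z4, hz4, hz4P⟩ := hP.add z3 hz3P
  obtain ⟨z5, hz5, hz5P⟩ := hP.add z4 hz4P
  obtain ⟨z6, hz6, hz6P⟩ := hP.add z5 hz5P
  obtain ⟨z7, hz7, hz7P⟩ := hP.add z6 hz6P
  have h7 : (z7 : F) = 7 := by
    rw [hz7, hz6, hz5, hz4, hz3, hz2, Units.val_one]
    norm_num
  have h8 : -z7 ∈ TR 2 ζ R := by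
    apply Subgroup.mem_sup_right
    apply Subgroup.subset_closure
    change R.valuation (((-z7 : Fˣ) : F) - 1) < R.valuation (1 - ζ) ^ 2
    have e1 : ((-z7 : Fˣ) : F) - 1 = -(((2 : ℕ) : F) ^ 3) := by
      rw [Units.val_neg, h7]
      norm_num
    have e2 : 1 - ζ = ((2 : ℕ) : F) := by
      rw [hz]
      norm_num
    rw [e1, e2, Valuation.map_neg, map_pow]
    exact pow_lt_pow_right_of_lt_one₀ (zero_lt_iff.2 h20) h2 (by norm_num)
  have h9 := div_mem (hle h8) hz7P
  rw [neg_div, div_self'] at h9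
  exact hP.neg h9

/-- the family of the pieces in `K₂(F)/p` -/
theorem exists_kf [Fact p.Prime] [Finite A] (hφ : Function.Surjective φ) {ζ : Fˣ}
    (hζ : IsPrimitiveRoot ζ p) (hk : ∀ u : Fˣ, φ u = 1 ↔ ∃ c : Fˣ, u = c ^ p) :
    ∃ (I : Type) (_ : Finite I) (T : I → Subgroup Fˣ), KF p φ T ∧ ∀ i, Piece p (ζ : F) (T i) := by
  classical
  have hp : p.Prime := Fact.out
  have hζF : IsPrimitiveRoot (ζ : F) p := by rwa [IsPrimitiveRoot.coe_units_iff]
  have hζ1 : (ζ : F) ≠ 1 := hζF.ne_one hp.one_lt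
  obtain ⟨I, hI, T, a1, a2, a3, a4, a5⟩ := top3 hφ hζ hk
  have hK : KF p φ T := ⟨a1, a2, a3, a4⟩
  have hker : ∀ i, ∀ u : Fˣ, φ u = 1 → u ∈ T i := by
    intro i u hu
    obtain ⟨c, rfl⟩ := (hk u).1 hu
    exact a1 i c
  -- the local refinement
  have key : ∀ i, ∃ (J : Type) (_ : Finite J) (S : J → Subgroup Fˣ),
      (∀ j, ∀ c : Fˣ, c ^ p ∈ S j) ∧ (∀ u : J → Fˣ, ∃ y : Fˣ, ∀ j, y / u j ∈ S j) ∧
      (∀ t : Fˣ, (∀ j, t ∈ S j) ↔ t ∈ T i) ∧
      (∀ x, (∀ j, x ∈ St φ ⊔ Lt ((S j).map φ)) → x ∈ St φ ⊔ Lt ((T i).map φ)) ∧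
      ∀ j, Piece p (ζ : F) (S j) := by
    intro i
    have hone : Piece p (ζ : F) (T i) → ∃ (J : Type) (_ : Finite J) (S : J → Subgroup Fˣ),
      (∀ j, ∀ c : Fˣ, c ^ p ∈ S j) ∧ (∀ u : J → Fˣ, ∃ y : Fˣ, ∀ j, y / u j ∈ S j) ∧
      (∀ t : Fˣ, (∀ j, t ∈ S j) ↔ t ∈ T i) ∧
      (∀ x, (∀ j, x ∈ St φ ⊔ Lt ((S j).map φ)) → x ∈ St φ ⊔ Lt ((T i).map φ)) ∧
      ∀ j, Piece p (ζ : F) (S j) := by
      intro hpc
      exact ⟨Unit, inferInstance, fun _ => T i, fun _ => a1 i,
        fun u => ⟨u (), fun _ => by rw [div_self']; exact one_mem _⟩,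
        fun t => ⟨fun h => h (), fun h _ => h⟩, fun x hx => hx (), fun _ => hpc⟩
    rcases a5 i with ⟨O, hO⟩ | ⟨O, hO, hco⟩ | hO
    · -- tame
      have hTR : T i = TR p (ζ : F) O := by
        ext t
        rw [hO.mem, mem_TR hp.ne_zero hζF.pow_eq_one hζ1]
        simp only [sm_of_pv hp hζF hO.pv]
      by_cases hnx : NX p (ζ : F) O
      · refine hone (Or.inl ⟨O, ⟨Or.inl ⟨hO.pv, hO.nu, fun g => ?_⟩, hnx⟩, hTR⟩)
        rw [← hTR]
        exact nc_of_tm hp hφ hK i hO g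
      · unfold NX at hnx
        push Not at hnx
        obtain ⟨P, hP, hle, g, hg⟩ := hnx
        rw [← hTR] at hle hg
        obtain rfl : p = 2 := by
          rcases hp.eq_two_or_odd' with h2 | h2
          · exact h2
          · exact absurd hle (Pool.Agent.ETC.not_le_of_odd h2 (a1 i) hP)
        obtain ⟨c, hc⟩ := not_val_of_tm hO
        -- `P` is not `T i`
        have hPne : ¬ P ≤ T i := by
          intro h
          have h1 : ∀ c' : Fˣ, O.valuation (c' : F) = O.valuation (c : F) → c' ∉ P := by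
            intro c' hc' hc'P
            obtain ⟨f, hf⟩ := val_of_tm hO (h hc'P)
            exact hc f (hc'.symm.trans hf)
          rcases hP.tot c with h2 | h2
          · exact h1 c rfl h2
          · exact h1 (-c) (by rw [Units.val_neg, Valuation.map_neg]) h2
        have hsq : ∀ n : ℕ, ∀ x : Fˣ, x / g ^ n ∈ T i → x ∈ T i ∨ x * g ∈ T i := by
          intro n x hx
          rcases Nat.even_or_odd n with hn | hn
          · left
            obtain ⟨k, rfl⟩ := hn
            have h3 := mul_mem hx (a1 i (g ^ k))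
            rwa [← pow_mul, mul_two, div_mul_cancel] at h3
          · right
            obtain ⟨k, rfl⟩ := hn
            have h3 := mul_mem hx (a1 i (g ^ (k + 1)))
            have h4 : x / g ^ (2 * k + 1) * (g ^ (k + 1)) ^ 2 = x * g := by
              rw [← pow_mul, div_mul_eq_mul_div, div_eq_iff_eq_mul, mul_assoc, ← pow_succ']
              congr 2
              ring
            rwa [h4] at h3
        have hgP : g ∈ P := by
          by_contra hgP
          apply hPne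
          intro x hx
          obtain ⟨n, hn⟩ := hg x hx
          rcases hsq n x hn with h | h
          · exact h
          · exact absurd ((Subgroup.mul_mem_cancel_left P hx).1 (hle h)) hgP
        have hgT : g ∉ T i := by
          intro h
          apply hPne
          intro x hx
          obtain ⟨n, hn⟩ := hg x hx
          rcases hsq n x hn with h1 | h1
          · exact h1
          · exact (Subgroup.mul_mem_cancel_right (T i) h).1 h1
        have hPT : ∀ x ∈ P, x ∈ T i ∨ x * g ∈ T i := by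
          intro x hx
          obtain ⟨n, hn⟩ := hg x hx
          exact hsq n x hn
        have hQ := ordg_sec (a1 i) hP hle hgT hPT hO
        refine ⟨Bool, inferInstance, fun b => if b then P else sec (T i) g (a1 i), ?_, ?_, ?_, ?_,
          ?_⟩
        · rintro (_ | _) c'
          · exact Or.inl (a1 i c')
          · exact hle (a1 i c')
        · intro u
          obtain ⟨y, h1, h2⟩ := onto_sec (a1 i) hgP hQ (u true) (u false)
          refine ⟨y, ?_⟩
          rintro (_ | _)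
          · exact h2
          · exact h1
        · intro t
          rw [inf_sec (a1 i) hP hle hgP]
          constructor
          · exact fun h => ⟨h true, h false⟩
          · rintro ⟨h1, h2⟩ (_ | _)
            · exact h2
            · exact h1
        · intro x hx
          exact glue_sec (a1 i) hP hle hgP hgT hPT hφ (hker i) hQ (hx true) (hx false)
        · rintro (_ | _)
          · exact Or.inr ⟨rfl, hQ⟩
          · exact Or.inr ⟨rfl, hP⟩
    · -- wild
      have hV2 := v2_of_wd O hp hζ hk hO hco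
      have hTR : T i = TR p (ζ : F) O := by
        ext t
        rw [hO.mem, mem_TR hp.ne_zero hζF.pow_eq_one hζ1]
        rfl
      refine hone (Or.inl ⟨O, ⟨Or.inr hV2, ?_⟩, hTR⟩)
      rcases hp.eq_two_or_odd' with h2 | h2
      · subst h2
        exact fun P hP hle => absurd hle (not_ordg_of_v2 hζF hV2 hP)
      · exact NX.of_odd h2 _ _
    · exact hone (Or.inr hO)
  choose J hJ S s1 s2 s3 s4 s5 using key
  refine ⟨Σ i, J i, inferInstance, fun k => S k.1 k.2, hK.refine S s1 s2 s3 s4, fun k => s5 k.1 k.2⟩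

end

/-- FAMA -/
theorem t_FAMA : Pool.Agent.ETC.S_FAMA := by
  intro p hpf F _ ζ hζ hfin
  have hp : p.Prime := Fact.out
  obtain ⟨z, rfl⟩ : ∃ z : Fˣ, (z : F) = ζ := ⟨Units.mk0 _ (hζ.ne_zero hp.ne_zero), Units.val_mk0 _⟩
  have hz : IsPrimitiveRoot z p := by rwa [IsPrimitiveRoot.coe_units_iff] at hζ
  have hfi : (powMonoidHom p : Fˣ →* Fˣ).range.FiniteIndex := ⟨hfin⟩
  have hfin' : Finite (Pool.Agent.Helper24.ETC.Cl (Pool.Agent.Helper24.ETC.pw F p)) :=
    inferInstanceAs (Finite (Fˣ ⧸ (powMonoidHom p : Fˣ →* Fˣ).range))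
  obtain ⟨φ, hφe⟩ : ∃ φ, φ = Pool.Agent.Helper24.ETC.cl (Pool.Agent.Helper24.ETC.pw F p) :=
    ⟨_, rfl⟩
  have hφ : Function.Surjective φ := by
    rw [hφe]
    exact Pool.Agent.Helper24.ETC.cl_surj _
  have hk : ∀ u : Fˣ, φ u = 1 ↔ ∃ c : Fˣ, u = c ^ p := by
    intro u
    rw [hφe, Pool.Agent.Helper24.ETC.cl_eq_one, Pool.Agent.Helper24.ETC.mem_pw]
    exact ⟨fun ⟨c, hc⟩ => ⟨c, hc.symm⟩, fun ⟨c, hc⟩ => ⟨c, hc.symm⟩⟩
  obtain ⟨I, hI, T, hK, hT⟩ := exists_kf hφ hz hk
  -- norms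
  let K : IntermediateField F (AlgebraicClosure F) :=
    sSup {L : IntermediateField F (AlgebraicClosure F) |
      FiniteDimensional F L ∧ IsGalois F L ∧ ∃ k : ℕ, Module.finrank F L = p ^ k}
  have hP : Pool.Agent.ETC.PCl p F K := Pool.Agent.Helper59.EA.pcl_of_max hp ⟨_, hζ⟩ rfl
  have hnm : ∀ a b : Fˣ, Additive.ofMul (φ a) ⊗ₜ[ℤ] Additive.ofMul (φ b) ∈ St φ → Nm p a b :=
    fun a b h => Pool.Agent.Helper95.EC.nm_of_st hP hζ hφ hk h
  refine ⟨I, hI, T, ⟨hK.pow, hK.onto, ?_, ?_, ?_⟩, ?_, hT⟩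
  · intro t ht b
    have h1 := (hK.rad t).1 ht
    exact ⟨hnm _ _ (h1 _), hnm _ _ (Rad_right hφ h1 _)⟩
  · intro i a t ha ht
    exact ⟨hnm _ _ (hK.orth i ha ht).2, hnm _ _ (hK.orth i ha ht).1⟩
  · rintro u v huv i u' v' ⟨h1, h2⟩ ⟨h3, -⟩
    exact hnm _ _ (hK.pr huv i h1 h2 h3)
  · intro a b
    constructor
    · intro h
      have h1 : Additive.ofMul (φ a) ⊗ₜ[ℤ] Additive.ofMul (φ b) ∈ St φ := by
        refine hK.glue _ fun i => ?_
        exact st_descend (Pool.Agent.Helper24.ETC.cl_surj (T i))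
          (fun u hu => Pool.Agent.Helper24.ETC.cl_eq_one.1 hu) (h i)
      rw [hφe] at h1
      exact h1
    · intro h i
      have h1 := st_descend (φ := Pool.Agent.Helper24.ETC.cl (T i))
        (Pool.Agent.Helper24.ETC.cl_surj (Pool.Agent.Helper24.ETC.pw F p))
          (fun u hu => Pool.Agent.Helper24.ETC.cl_eq_one.1 hu) h
      have h2 : Lt ((Pool.Agent.Helper24.ETC.pw F p).map (Pool.Agent.Helper24.ETC.cl (T i))) = ⊥ := by
        rw [eq_bot_iff]
        unfold Lt
        rw [AddSubgroup.closure_le]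
        rintro _ ⟨l, hl, a, hx⟩
        obtain ⟨_, ⟨c, rfl⟩, rfl⟩ := hl
        have h3 : Pool.Agent.Helper24.ETC.cl (T i) ((powMonoidHom p : Fˣ →* Fˣ) c) = 1 :=
          Pool.Agent.Helper24.ETC.cl_eq_one.2 (hK.pow i c)
        rw [h3, ofMul_one, TensorProduct.zero_tmul, TensorProduct.tmul_zero, or_self] at hx
        rw [hx]
        exact zero_mem _
      rw [h2, sup_bot_eq] at h1
      exact h1

/-- FAM -/
theorem t_FAM : Pool.Agent.ETC.S_FAM := by
  intro p hpf hp2 F _ ζ hζ hfin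
  obtain ⟨I, hI, T, h1, -, h3⟩ := t_FAMA p F ζ hζ hfin
  choose R hR using fun i => (h3 i).resolve_right fun h => hp2 h.1
  refine ⟨I, hI, R, fun i => (hR i).1.1, ?_⟩
  have h4 : (fun i => TR p ζ (R i)) = T := funext fun i => (hR i).2.symm
  rw [h4]
  exact h1

end Pool.Agent.Helper39.FAM
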